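import Pool.Agent.TMX.Stmts2

/-! Squad TMX, row Gain2. -/

namespace Pool.Agent.TMX.H26

open Finset Pool.Agent.TMX
open Pool.Agent.Helper51_Max (I IsMax)

/-- the ball inequality, shifted by `u` (as in Helper75_TMX/Gain) -/
theorem ball_ge {N : ℕ} {g M : ℕ → ℝ} (h : IsMax N g M) {v : ℕ} (hv : v ≤ N) (u : ℝ)
    {ρ a e : ℕ} (hI : I N v ρ = Icc a e) (hae : a ≤ e + 1) :
    ∑ i ∈ Icc a e, (g i - u) ≤ ((e : ℝ) + 1 - a) * (M v - u) := by
  have h1 := h.le v hv ρ
  rw [hI, Nat.card_Icc, Nat.cast_sub hae] at h1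
  rw [sum_sub_distrib, sum_const, Nat.card_Icc, nsmul_eq_mul, Nat.cast_sub hae]
  push_cast at h1 ⊢
  linarith

theorem fin_step {n s q τ : ℝ} (hq : 0 < q) (hqn : q ≤ n) (hτ : 0 ≤ τ) (h : τ ≤ q * s) :
    τ ≤ 2 * n * s := by
  have hs : 0 ≤ s := by
    by_contra hc
    push Not at hc
    have := mul_neg_of_pos_of_neg hq hc
    linarith
  have h1 := mul_le_mul_of_nonneg_right hqn hs
  nlinarith

theorem coreA {l d q n h X τ m m' : ℝ} (hd : 0 < d) (h2d : 2 * d < l) (hq0 : 0 < q)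
    (hqn : q ≤ n) (hX : 0 ≤ X) (hτ : 0 ≤ τ) (hh : 0 ≤ h) (F1 : l * h ≤ (l + 2 * d) * m)
    (F2 : l * h - X ≤ (l - 2 * d) * m) (F3 : X + τ ≤ q * m') (hq2 : q ≤ 2 * l) :
    τ ≤ 2 * n * (m + m' - h) := by
  have key : 0 ≤ q * m - q * h + X := by
    by_cases hc : 2 * d * q * h ≤ X * (l + 2 * d)
    · have h1 := mul_le_mul_of_nonneg_left F1 hq0.le
      have h2 : 0 ≤ (l + 2 * d) * (q * m - q * h + X) := by nlinarith
      exact nonneg_of_mul_nonneg_right h2 (by linarith)
    · push Not at hc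
      have h1 := mul_le_mul_of_nonneg_left F2 hq0.le
      have h3 : 0 ≤ 2 * d * q * h - X * (q - l + 2 * d) := by
        by_cases hc2 : q ≤ l - 2 * d
        · have h4 : 0 ≤ 2 * d * q * h := by positivity
          have h5 : X * (q - l + 2 * d) ≤ 0 :=
            mul_nonpos_of_nonneg_of_nonpos hX (by linarith)
          linarith
        · have h5 : X * (q - l + 2 * d) ≤ X * (l + 2 * d) :=
            mul_le_mul_of_nonneg_left (by linarith) hX
          linarith
      have h2 : 0 ≤ (l - 2 * d) * (q * m - q * h + X) := by nlinarith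
      exact nonneg_of_mul_nonneg_right h2 (by linarith)
  apply fin_step hq0 hqn hτ
  nlinarith

theorem coreB {l d d' n h τ m m' : ℝ} (_hl : 0 < l) (hd : 0 < d) (hd' : 0 < d')
    (h2d : 2 * d + 2 * d' ≤ l) (hn : 0 < n) (hh : 0 ≤ h)
    (F1 : l * h ≤ (l + 2 * d) * m) (F4 : l * h ≤ (l + 2 * d') * m')
    (T1 : τ ≤ n * m) (T2 : τ ≤ n * m') :
    τ ≤ 2 * n * (m + m' - h) := by
  have ha : 0 < l + 2 * d := by linarith
  have hb : 0 < l + 2 * d' := by linarith
  have h1 : l * h / (l + 2 * d) ≤ m := by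
    rw [div_le_iff₀ ha]; linarith
  have h2 : l * h / (l + 2 * d') ≤ m' := by
    rw [div_le_iff₀ hb]; linarith
  have h3 : 4 / 3 * h ≤ l * h / (l + 2 * d) + l * h / (l + 2 * d') := by
    rw [div_add_div _ _ ha.ne' hb.ne', le_div_iff₀ (mul_pos ha hb)]
    have h4 : 4 * ((l + 2 * d) * (l + 2 * d')) ≤ ((l + 2 * d) + (l + 2 * d')) ^ 2 := by
      nlinarith [sq_nonneg ((l + 2 * d) - (l + 2 * d'))]
    have h5 : (l + 2 * d) + (l + 2 * d') ≤ 3 * l := by linarith
    have h6 : ((l + 2 * d) + (l + 2 * d')) ^ 2 ≤ 3 * l * ((l + 2 * d) + (l + 2 * d')) := by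
      rw [pow_two]
      exact mul_le_mul_of_nonneg_right h5 (by linarith)
    have h7 : 4 / 3 * ((l + 2 * d) * (l + 2 * d')) ≤ l * ((l + 2 * d) + (l + 2 * d')) := by
      linarith
    have h8 := mul_le_mul_of_nonneg_right h7 hh
    nlinarith
  have h4 : 4 * h ≤ 3 * (m + m') := by linarith
  have h5 : 2 * τ ≤ n * (m + m') := by linarith
  have h6 := mul_le_mul_of_nonneg_left h4 hn.le
  nlinarith

theorem gain2 : Gain2 := by
  intro N g M hM y z z' r u p hG hzp hpN hu
  have hgM : ∀ v, v ≤ N → g v ≤ M v := fun v hv => Helper37_EM.g_le hM hv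
  have hyz := hG.yz
  have hzz' := hG.zz
  have hrz := hG.rz
  have hrN := hG.rN
  have hy := hG.hy
  have hz := hG.hz
  have hC := hG.hC
  have hopt := hG.opt
  have hyu : u ≤ M y := (hu y (by omega)).trans (hgM y (by omega))
  have hz'u : u ≤ M z' := (hu z' (by omega)).trans (hgM z' (by omega))
  have hτ : 0 ≤ g p - u := by linarith [hu p le_rfl]
  have hnn : ∀ i, i ≤ p → 0 ≤ g i - u := fun i hi => by linarith [hu i hi]
  -- the ball of z
  have hIz : I N z r = Icc (z - r) (z + r) := by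
    unfold Helper51_Max.I
    rw [min_eq_left (by omega)]
  have hGs : ∑ i ∈ Icc (z - r) (z + r), (g i - u) = (2 * (r : ℝ) + 1) * (M z - u) := by
    rw [hIz, Nat.card_Icc, Nat.cast_sub (by omega)] at hopt
    rw [sum_sub_distrib, sum_const, Nat.card_Icc, nsmul_eq_mul, Nat.cast_sub (by omega)]
    rw [← hopt, Nat.cast_sub (by omega : r ≤ z)]
    push_cast
    ring
  have hG0 : 0 ≤ (2 * (r : ℝ) + 1) * (M z - u) := by
    rw [← hGs]
    apply sum_nonneg
    intro i hi
    rw [mem_Icc] at hi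
    exact hnn i (by omega)
  have hh : 0 ≤ M z - u := nonneg_of_mul_nonneg_right hG0 (by positivity)
  -- X
  have hX : 0 ≤ ∑ i ∈ Icc (2 * z' - (z + r)) (z + r), (g i - u) := by
    apply sum_nonneg
    intro i hi
    rw [mem_Icc] at hi
    exact hnn i (by omega)
  -- F1
  have hI1 : I N y (r + (z - y)) = Icc (y - (r + (z - y))) (z + r) := by
    unfold Helper51_Max.I
    rw [min_eq_left (by omega)]
    congr 1
    omega
  have F1a := ball_ge hM (by omega : y ≤ N) u hI1 (by omega)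
  have F1b : ∑ i ∈ Icc (z - r) (z + r), (g i - u) ≤
      ∑ i ∈ Icc (y - (r + (z - y))) (z + r), (g i - u) := by
    apply sum_le_sum_of_subset_of_nonneg
    · intro i hi
      rw [mem_Icc] at hi ⊢
      omega
    · intro i hi hi'
      rw [mem_Icc] at hi
      exact hnn i (by omega)
  have F1c : ((z + r : ℕ) : ℝ) + 1 - ((y - (r + (z - y)) : ℕ) : ℝ) ≤
      2 * (r : ℝ) + 1 + 2 * ((z : ℝ) - y) := by
    have h1 : z + r + 1 ≤ 2 * r + 1 + 2 * (z - y) + (y - (r + (z - y))) := by omega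
    have h2 : ((z + r + 1 : ℕ) : ℝ) ≤
        ((2 * r + 1 + 2 * (z - y) + (y - (r + (z - y))) : ℕ) : ℝ) := by exact_mod_cast h1
    push_cast [Nat.cast_sub (by omega : y ≤ z)] at h2
    push_cast
    linarith
  have F1 : (2 * (r : ℝ) + 1) * (M z - u) ≤
      (2 * (r : ℝ) + 1 + 2 * ((z : ℝ) - y)) * (M y - u) := by
    rw [← hGs]
    refine F1b.trans (F1a.trans ?_)
    exact mul_le_mul_of_nonneg_right F1c (by linarith)
  -- F2
  have hI2 : I N y (y + r - z) = Icc (z - r) (2 * y + r - z) := by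
    unfold Helper51_Max.I
    rw [min_eq_left (by omega)]
    congr 1 <;> omega
  have F2a := ball_ge hM (by omega : y ≤ N) u hI2 (by omega)
  have F2b : ∑ i ∈ Icc (z - r) (z + r), (g i - u) ≤
      ∑ i ∈ Icc (z - r) (2 * y + r - z), (g i - u) +
        ∑ i ∈ Icc (2 * z' - (z + r)) (z + r), (g i - u) := by
    rw [← sum_union_inter]
    have hun : Icc (z - r) (2 * y + r - z) ∪ Icc (2 * z' - (z + r)) (z + r) =
        Icc (z - r) (z + r) := by
      ext i
      rw [mem_union, mem_Icc, mem_Icc, mem_Icc]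
      omega
    rw [hun]
    have hin : 0 ≤ ∑ i ∈ Icc (z - r) (2 * y + r - z) ∩ Icc (2 * z' - (z + r)) (z + r),
        (g i - u) := by
      apply sum_nonneg
      intro i hi
      rw [mem_inter, mem_Icc, mem_Icc] at hi
      exact hnn i (by omega)
    linarith
  have F2c : ((2 * y + r - z : ℕ) : ℝ) + 1 - ((z - r : ℕ) : ℝ) =
      2 * (r : ℝ) + 1 - 2 * ((z : ℝ) - y) := by
    rw [Nat.cast_sub (by omega), Nat.cast_sub (by omega)]
    push_cast
    ring
  rw [F2c] at F2a
  have F2 : (2 * (r : ℝ) + 1) * (M z - u) - ∑ i ∈ Icc (2 * z' - (z + r)) (z + r), (g i - u) ≤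
      (2 * (r : ℝ) + 1 - 2 * ((z : ℝ) - y)) * (M y - u) := by
    rw [← hGs]
    linarith
  -- F3'
  have hI3 : I N z' (p - z') = Icc (z' - (p - z')) p := by
    unfold Helper51_Max.I
    rw [min_eq_left (by omega)]
    congr 1
    omega
  have F3a := ball_ge hM (by omega : z' ≤ N) u hI3 (by omega)
  have F3b : ∑ i ∈ Icc (2 * z' - (z + r)) (z + r), (g i - u) + (g p - u) ≤
      ∑ i ∈ Icc (z' - (p - z')) p, (g i - u) := by
    have hnot : p ∉ Icc (2 * z' - (z + r)) (z + r) := by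
      rw [mem_Icc]; omega
    rw [add_comm, ← sum_insert (f := fun i => g i - u) hnot]
    apply sum_le_sum_of_subset_of_nonneg
    · intro i hi
      rw [mem_insert, mem_Icc] at hi
      rw [mem_Icc]
      omega
    · intro i hi hi'
      rw [mem_Icc] at hi
      exact hnn i (by omega)
  have F3 := F3b.trans F3a
  -- d, d'
  have hd : (0 : ℝ) < (z : ℝ) - y := by
    have : (y : ℝ) < z := by exact_mod_cast hyz
    linarith
  have hd' : (0 : ℝ) < (z' : ℝ) - z := by
    have : (z : ℝ) < z' := by exact_mod_cast hzz'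
    linarith
  have h2d : 2 * ((z : ℝ) - y) + 2 * ((z' : ℝ) - z) ≤ 2 * (r : ℝ) + 1 := by
    have : (z' : ℝ) ≤ y + r := by exact_mod_cast hC
    linarith
  have hq0 : (0 : ℝ) < (p : ℝ) + 1 - ((z' - (p - z') : ℕ) : ℝ) := by
    have h1 : z' - (p - z') ≤ p := by omega
    have h2 : ((z' - (p - z') : ℕ) : ℝ) ≤ p := by exact_mod_cast h1
    linarith
  have hqn : (p : ℝ) + 1 - ((z' - (p - z') : ℕ) : ℝ) ≤ (N : ℝ) + 1 := by
    have h1 : (p : ℝ) ≤ N := by exact_mod_cast hpN
    have h2 : (0 : ℝ) ≤ ((z' - (p - z') : ℕ) : ℝ) := Nat.cast_nonneg _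
    linarith
  have hfin : ∀ {s : ℝ}, s = (M y - u) + (M z' - u) - (M z - u) →
      g p - u ≤ 2 * ((N : ℝ) + 1) * s → g p - u ≤ 2 * ((N : ℝ) + 1) * (M y + M z' - M z - u) := by
    intro s hs h
    have : s = M y + M z' - M z - u := by rw [hs]; ring
    rw [← this]
    exact h
  apply hfin rfl
  by_cases hq2 : (p : ℝ) + 1 - ((z' - (p - z') : ℕ) : ℝ) ≤ 2 * (2 * (r : ℝ) + 1)
  · exact coreA hd (by linarith) hq0 hqn hX hτ hh F1 F2 F3 hq2
  · push Not at hq2
    have hbig : 2 * (2 * r + 1) < 2 * (p - z') + 1 := by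
      have h1 : p + 1 - (z' - (p - z')) ≤ 2 * (p - z') + 1 := by omega
      have h2 : ((p + 1 - (z' - (p - z')) : ℕ) : ℝ) = (p : ℝ) + 1 - ((z' - (p - z') : ℕ) : ℝ) := by
        rw [Nat.cast_sub (by omega)]
        push_cast
        ring
      have h3 : 2 * (2 * r + 1) < p + 1 - (z' - (p - z')) := by
        have : ((2 * (2 * r + 1) : ℕ) : ℝ) < ((p + 1 - (z' - (p - z')) : ℕ) : ℝ) := by
          rw [h2]
          push_cast
          exact hq2
        exact_mod_cast this
      omega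
    -- F4
    have hI4 : I N z' (r + (z' - z)) = Icc (z - r) (2 * z' + r - z) := by
      unfold Helper51_Max.I
      rw [min_eq_left (by omega)]
      congr 1 <;> omega
    have F4a := ball_ge hM (by omega : z' ≤ N) u hI4 (by omega)
    have F4b : ∑ i ∈ Icc (z - r) (z + r), (g i - u) ≤
        ∑ i ∈ Icc (z - r) (2 * z' + r - z), (g i - u) := by
      apply sum_le_sum_of_subset_of_nonneg
      · intro i hi
        rw [mem_Icc] at hi ⊢
        omega
      · intro i hi hi'
        rw [mem_Icc] at hi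
        exact hnn i (by omega)
    have F4c : ((2 * z' + r - z : ℕ) : ℝ) + 1 - ((z - r : ℕ) : ℝ) =
        2 * (r : ℝ) + 1 + 2 * ((z' : ℝ) - z) := by
      rw [Nat.cast_sub (by omega), Nat.cast_sub (by omega)]
      push_cast
      ring
    rw [F4c] at F4a
    have F4 : (2 * (r : ℝ) + 1) * (M z - u) ≤
        (2 * (r : ℝ) + 1 + 2 * ((z' : ℝ) - z)) * (M z' - u) := by
      rw [← hGs]
      exact F4b.trans F4a
    -- balls with right end p
    have hT : ∀ v, v ≤ p → u ≤ M v → g p - u ≤ ((N : ℝ) + 1) * (M v - u) := by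
      intro v hv huv
      have hI5 : I N v (p - v) = Icc (v - (p - v)) p := by
        unfold Helper51_Max.I
        rw [min_eq_left (by omega)]
        congr 1
        omega
      have h1 := ball_ge hM (by omega : v ≤ N) u hI5 (by omega)
      have h2 : g p - u ≤ ∑ i ∈ Icc (v - (p - v)) p, (g i - u) := by
        apply single_le_sum (f := fun i => g i - u) (fun i hi => ?_) (mem_Icc.mpr (by omega))
        rw [mem_Icc] at hi
        exact hnn i (by omega)
      refine h2.trans (h1.trans (mul_le_mul_of_nonneg_right ?_ (by linarith)))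
      have h3 : (p : ℝ) ≤ N := by exact_mod_cast hpN
      have h4 : (0 : ℝ) ≤ ((v - (p - v) : ℕ) : ℝ) := Nat.cast_nonneg _
      linarith
    exact coreB (by positivity) hd hd' h2d (by positivity) hh F1 F4 (hT y (by omega) hyu)
      (hT z' (by omega) hz'u)

end Pool.Agent.TMX.H26
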